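import Pool.Agent.H494Z.QE.Defs
import Pool.Agent.H494Z.QE.DefsT
import Pool.Agent.H494Z.QE.FinC
import Pool.Agent.H494Z.QE.CovC
import Pool.Agent.H234Z.Pol
import Pool.Agent.H231Z.QE.Exp
import Pool.Agent.H509Z.QE.Clamp
import Pool.Agent.H509Z.QE.Ult
import Pool.Agent.H186Z.QE.Dec
import Pool.Agent.H515Z.GMMat
import Pool.Agent.H602Z.NHImp
import Pool.Agent.H602Z.NHTilt
import Pool.Agent.H726Z.NH.TH
import Pool.Agent.H374Z.RS.Main

set_option autoImplicit false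

namespace Pool.Agent.Results.MP_f81d8e_an.ACommutant

open Pool.Agent.H494Z.QEDefs

/-- The relative commutant of the image of a Kazhdan group in a tracial ultraproduct of matrix
algebras is the ultraproduct of star subalgebras of the same matrix algebras. -/
theorem result : ∀ (G : Type) [Group G] [Countable G], PropertyT G →
    ∀ S : Finset G, Subgroup.closure (S : Set G) = ⊤ → (∀ s ∈ S, s⁻¹ ∈ S) →
    ∀ U : Ultrafilter ℕ, (U : Filter ℕ) ≤ Filter.cofinite →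
    ∀ d : ℕ → ℕ, (∀ k, 0 < d k) → ∀ π : G → Seq d, IsUnitaryHom U π →
    ∃ A : ∀ k : ℕ, StarSubalgebra ℂ (Matrix (Fin (d k)) (Fin (d k)) ℂ),
      ∀ x : Seq d, Bdd x →
        ((∀ g, Same U (x * π g) (π g * x)) ↔
          ∃ a : Seq d, Bdd a ∧ (∀ k, a k ∈ A k) ∧ Same U x a) := by
  have hTH := Pool.Agent.H726Z.NH.th
  have hGM := Pool.Agent.H515Z.GM.gm
  have hPOL := Pool.Agent.H234Z.Pol.pol
  exact Pool.Agent.H509Z.QE.ult hPOL Pool.Agent.H509Z.QE.clamp
    (Pool.Agent.H494Z.QE.fin hGM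
      (Pool.Agent.H186Z.QE.dec (Pool.Agent.H234Z.Pol.orth hPOL) Pool.Agent.H231Z.QE.exp
        (Pool.Agent.H494Z.QE.cov hTH Pool.Agent.H374Z.RS.rs (Pool.Agent.H602Z.NH.imp hTH hGM)
          (Pool.Agent.H602Z.NH.tilt hTH)))
      (Pool.Agent.H494Z.QE.schur hPOL))

end Pool.Agent.Results.MP_f81d8e_an.ACommutant
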